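import Mathlib

/-!
# MP_41e59c_pr: the Gaussian half-factor `g` is not a Polya frequency function

We show that `g` is not even a Polya frequency function of order `12`: at `z₀ = log (10/3)` the
confluent `12 × 12` determinant `det [g^(i+j)(z₀)]` has the wrong sign, and hence so has a genuine
minor near `z₀`.
-/

set_option autoImplicit false

open MeasureTheory Filter Topology Set Finset
open scoped Real ContDiff

namespace Pool.Agent.Results.MP_41e59c_pr.NotPolyaFrequency

/-- The function `g` of the problem. -/
noncomputable def g (z : ℝ) : ℝ :=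
  (2 / π) ^ (1 / 4 : ℝ) *
    Real.exp (π ^ 2 / 12 + z - ∫ t in (0 : ℝ)..Real.exp z, Real.log (1 + t) / t)

/-- Polya frequency functions of order `k`. -/
def IsPF (k : ℕ) (f : ℝ → ℝ) : Prop :=
  Measurable f ∧ (∀ z, 0 ≤ f z) ∧ ∀ n ≤ k, ∀ x y : Fin n → ℝ, StrictMono x → StrictMono y →
    0 ≤ (Matrix.of fun i j => f (x i - y j)).det

/-! ### Integer data -/

/-- the integers `13^(m+1) σ^(m)(z₀)` -/
def Sv : List ℤ := [10, 30, -210, -330, 40110, -466170, -10155810, 489426870, -2345626290, -467784329370, 16090140502590, 278793445586070, -40963229888676690, 823347478167215430, 79433459939363064990, -5876635608598205102730, -24603689214664439151090, 25022203383347655604648230, -1133179744042256939192228610, -68225979218223665169073519530, 10202772215833057309854405510510, -164703788636134134351320942750970]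

/-- the integers `13^m G^(m)(z₀)/G(z₀)` -/
def hv : List ℤ := [1, 0, -130, -390, 53430, 511290, -37278930, -734970990, 36338568630, 1248633106890, -44765843564130, -2497389003634590, 65282316448321830, 5796839555984486490, -107000489748433377330, -15385616243515629002190, 187404499507466802123030, 46043157699189029592810090, -329395323386195736245638530, -153197296518459719575451633790, 517799796418522710886190692230, 558115299068093301848677782237690, -403082576634856708902516607067730]

/-- lower factor -/
def Lm : Matrix (Fin 12) (Fin 12) ℚ := !![1, 0, 0, 0, 0, 0, 0, 0, 0, 0, 0, 0;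
  0, 1, 0, 0, 0, 0, 0, 0, 0, 0, 0, 0;
  -130, 3, 1, 0, 0, 0, 0, 0, 0, 0, 0, 0;
  -390, -411, 231/29, 1, 0, 0, 0, 0, 0, 0, 0, 0;
  53430, -3933, -24513/29, 186014/13283, 1, 0, 0, 0, 0, 0, 0, 0;
  511290, 286761, -428205/29, -19073425/13283, 1390475370/68467393, 1, 0, 0, 0, 0, 0, 0;
  -37278930, 5653623, 25920939/29, -493450210/13283, -450843721735/205402179, 2453066223738985/93915490309733, 1, 0, 0, 0, 0, 0;
  -734970990, -279527451, 803131671/29, 28579051963/13283, -15231969091600/205402179, -295205915661180660/93915490309733, 1305124787043911172804341/42518087453585457284657, 1, 0, 0, 0, 0;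
  36338568630, -9604870053, -33682868433/29, 1205535089814/13283, 918614355338419/205402179, -11851610996834997370/93915490309733, -182990523539145712309721582/42518087453585457284657, 27788356515485757509891428852194236/834750682610625971500228577571799, 1, 0, 0, 0;
  1248633106890, 344352642801, -1692899360805/29, -48259559129465/13283, 47426081084741890/205402179, 795828140336742434603/93915490309733, -8044275491830480307544878426/42518087453585457284657, -4743483446970176395786524584682609798/834750682610625971500228577571799, 19898239376600206078486518131487886736933522604/600241447445115663526579915750738817525189123, 1, 0, 0;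
  -44765843564130, 19210684643343, 1775992673631, -3137668679529970/13283, -1991202542200200995/205402179, 45857785995503029883715/93915490309733, 637811123293533416460487974979/42518087453585457284657, -210775635048245320571024543748292830160/834750682610625971500228577571799, -4336134283245537459192572234284394171802538313700/600241447445115663526579915750738817525189123, 655603953959352285788076466099111555343028918541672833984855/22110989281123466298516953419683104347091142113520550026401, 1, 0;
  -2497389003634590, -502171664987091, 4058716950897711/29, 91589549819043843/13283, -150039607239233949100/205402179, -2193885337913241266332070/93915490309733, 37646638588730482372870466327207/42518087453585457284657, 20809815587912484596176346729840177833093/834750682610625971500228577571799, -178311239369904491163097890285464259694512720560570/600241447445115663526579915750738817525189123, -191605598569086667442071443677803205382131151836326386651164305/22110989281123466298516953419683104347091142113520550026401, 2574416624928826944225089337965859547475546389485346945793667474049324591845/108969576598317963585276805195790091195558878172967993624566193121674537843,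 1]

/-- upper factor -/
def Um : Matrix (Fin 12) (Fin 12) ℚ := !![1, 0, -130, -390, 53430, 511290, -37278930, -734970990, 36338568630, 1248633106890, -44765843564130, -2497389003634590;
  0, -130, -390, 53430, 511290, -37278930, -734970990, 36338568630, 1248633106890, -44765843564130, -2497389003634590, 65282316448321830;
  0, 0, 37700, 300300, -31866900, -556666500, 33697220700, 1044071172300, -43787728962900, -2200769169046500, 66954923795888700, 5276332036167024300;
  0, 0, 0, -518037000/29, -7254546000/29, 743863575000/29, 19244558190000/29, -1114583026557000/29, -47015868502746000/29, 1882122806049135000/29, 4219623396609270000, -3571992442942709877000/29;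
  0, 0, 0, 0, 160213699620000/13283, 3253712365800000/13283, -351658102953300000/13283, -11880935891448000000/13283, 716519197163966820000/13283, 36992343246098674200000/13283, -1553137982916156776100000/13283, -117030893646602480298000000/13283;
  0, 0, 0, 0, 0, -732540824415917400000/68467393, -19133916545164083000000/68467393, 2302606142157209148000000/68467393, 92442565775312979486000000/68467393, -6207459494626590989903400000/68467393, -357690730764923633092977000000/68467393, 17112305635723281877390146000000/68467393;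
  0, 0, 0, 0, 0, 0, 1105470273793221889401082000000/93915490309733, 33933244463141690492912866000000/93915490309733, -4757753612017788520052761132000000/93915490309733, -209151162787592487996166839076000000/93915490309733, 16583089205631868827972687349454000000/93915490309733, 978812603306992541694632124507382000000/93915490309733;
  0, 0, 0, 0, 0, 0, 0, -651105532436288257770178290506003220000000/42518087453585457284657, -21674918082078890857715314504711504080000000/42518087453585457284657, 3699917088636737588713489176052435642440000000/42518087453585457284657, 164404995337631350045399144123668407524800000000/42518087453585457284657, -16231656158571737985017550449275338709812540000000/42518087453585457284657;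
  0, 0, 0, 0, 0, 0, 0, 0, 18727533160287608702029293371423051106785900637600000000/834750682610625971500228577571799, 620825068549926429648779365702422066192325905244800000000/834750682610625971500228577571799, -135287389637260768726808253709673098160239195387440000000000/834750682610625971500228577571799, -5563310668341020124288654176906484902468796881489784000000000/834750682610625971500228577571799;
  0, 0, 0, 0, 0, 0, 0, 0, 0, -20695885967131564455411868400823385668877309018255234824711336000000000/600241447445115663526579915750738817525189123, -613645300905953739497639572268768415801075067755005772609824280000000000/600241447445115663526579915750738817525189123, 179342840260665120725778871282423800237674758118801497905489789480000000000/600241447445115663526579915750738817525189123;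
  0, 0, 0, 0, 0, 0, 0, 0, 0, 0, 1019955236960256139158190896632595253590431099698980420325939567618873674210480000000000/22110989281123466298516953419683104347091142113520550026401, 24096539609333820197946836203360445364371114205582847412628727557101678179669200000000000/22110989281123466298516953419683104347091142113520550026401;
  0, 0, 0, 0, 0, 0, 0, 0, 0, 0, 0, 1024815778963630052802119935013002054210641805632575221675285746118024735772470085060824013224800000000000/108969576598317963585276805195790091195558878172967993624566193121674537843]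

lemma Sv_rec : ∀ m < 21, Sv.getD (m + 1) 0 = 13 * Sv.getD m 0 -
    ∑ j ∈ range (m + 1), (m.choose j : ℤ) * Sv.getD j 0 * Sv.getD (m - j) 0 := by
  decide +kernel

lemma hv_rec : ∀ m < 22, hv.getD (m + 1) 0 = -13 *
    ∑ j ∈ range m, (m.choose (j + 1) : ℤ) * hv.getD (m - (j + 1)) 0 * Sv.getD j 0 := by
  decide +kernel

lemma LU : ∀ i j : Fin 12, ∑ k, Lm i k * Um k j = ((hv.getD (i + j) 0 : ℤ) : ℚ) := by
  decide +kernel

lemma Lm_low : ∀ i j : Fin 12, i < j → Lm i j = 0 := by decide +kernel
lemma Lm_diag : ∏ i : Fin 12, Lm i i = 1 := by decide +kernel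
lemma Um_up : ∀ i j : Fin 12, j < i → Um i j = 0 := by decide +kernel
lemma Um_diag : ∏ i : Fin 12, Um i i < 0 := by decide +kernel

/-- the real Hankel matrix of the integer sequence -/
noncomputable def Hm : Matrix (Fin 12) (Fin 12) ℝ := Matrix.of fun i j => ((hv.getD (i + j) 0 : ℤ) : ℝ)

lemma Hm_det : Hm.det < 0 := by
  have h1 : Hm = (Rat.castHom ℝ).mapMatrix (Lm * Um) := by
    ext i j
    simp only [Hm, Matrix.of_apply, RingHom.mapMatrix_apply, Matrix.map_apply, Matrix.mul_apply,
      LU, Rat.coe_castHom]
    push_cast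
    rfl
  have h2 : Lm.det = 1 := by
    rw [Matrix.det_of_isLowerTriangular Lm (fun i j h => Lm_low i j h), Lm_diag]
  have h3 : Um.det = ∏ i, Um i i := Matrix.det_of_isUpperTriangular (fun i j h => Um_up i j h)
  rw [h1, ← RingHom.map_det, Matrix.det_mul, h2, h3, one_mul]
  have h4 := Um_diag
  simp only [Rat.coe_castHom]
  exact_mod_cast h4

/-! ### Derivatives -/

lemma log_div_bound {t : ℝ} (ht : 0 ≤ t) : ‖Real.log (1 + t) / t‖ ≤ 1 := by
  rcases ht.eq_or_lt with h | h
  · subst h; simp
  · have h1 : 0 ≤ Real.log (1 + t) := Real.log_nonneg (by linarith)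
    have h2 : Real.log (1 + t) ≤ t := by
      have := Real.log_le_sub_one_of_pos (show (0 : ℝ) < 1 + t by linarith)
      linarith
    rw [Real.norm_eq_abs, abs_of_nonneg (by positivity), div_le_one h]
    exact h2

lemma ii {x : ℝ} (hx : 0 < x) :
    IntervalIntegrable (fun t => Real.log (1 + t) / t) volume 0 x := by
  rw [intervalIntegrable_iff_integrableOn_Ioc_of_le hx.le]
  refine Measure.integrableOn_of_bounded (M := 1) (by simp) ?_ ?_
  · exact ((Real.measurable_log.comp (measurable_const.add measurable_id)).div
      measurable_id).aestronglyMeasurable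
  · refine (ae_restrict_iff' measurableSet_Ioc).2 (Eventually.of_forall fun t ht => ?_)
    exact log_div_bound ht.1.le

lemma J_deriv {x : ℝ} (hx : 0 < x) :
    HasDerivAt (fun y => ∫ t in (0 : ℝ)..y, Real.log (1 + t) / t) (Real.log (1 + x) / x) x := by
  refine intervalIntegral.integral_hasDerivAt_right (ii hx) ?_ ?_
  · have hm : Measurable (fun t : ℝ => Real.log (1 + t) / t) :=
      (Real.measurable_log.comp (measurable_const.add measurable_id)).div measurable_id
    exact hm.stronglyMeasurable.stronglyMeasurableAtFilter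
  · have h1 : (1 + x) ≠ 0 := by linarith
    exact ((Real.continuousAt_log h1).comp (f := fun t : ℝ => 1 + t) (by fun_prop)).div
      continuousAt_id hx.ne'

lemma g_deriv (z : ℝ) : HasDerivAt g (g z * (1 - Real.log (1 + Real.exp z))) z := by
  unfold g
  have h1 : HasDerivAt (fun z => ∫ t in (0 : ℝ)..Real.exp z, Real.log (1 + t) / t)
      (Real.log (1 + Real.exp z) / Real.exp z * Real.exp z) z :=
    (J_deriv (Real.exp_pos z)).comp z (Real.hasDerivAt_exp z)
  have h2 : HasDerivAt (fun z => π ^ 2 / 12 + z - ∫ t in (0 : ℝ)..Real.exp z,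
      Real.log (1 + t) / t) (1 - Real.log (1 + Real.exp z) / Real.exp z * Real.exp z) z :=
    ((hasDerivAt_id z).const_add _).sub h1
  have h3 := (h2.exp).const_mul ((2 / π) ^ (1 / 4 : ℝ) : ℝ)
  refine h3.congr_deriv ?_
  rw [div_mul_cancel₀ _ (Real.exp_pos z).ne']
  ring

lemma g_pos (z : ℝ) : 0 < g z := by
  unfold g
  positivity

/-- the base point -/
noncomputable def z0 : ℝ := Real.log (10 / 3)

lemma exp_z0 : Real.exp z0 = 10 / 3 := Real.exp_log (by norm_num)

/-- the tilt -/
noncomputable def l0 : ℝ := 1 - Real.log (13 / 3)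

/-- the tilted function -/
noncomputable def G (z : ℝ) : ℝ := g z * Real.exp (-(l0 * z))

/-- its logarithmic derivative -/
noncomputable def lam (z : ℝ) : ℝ := Real.log (13 / 3) - Real.log (1 + Real.exp z)

/-- the logistic function -/
noncomputable def sig (z : ℝ) : ℝ := Real.exp z / (1 + Real.exp z)

lemma one_add_exp (z : ℝ) : (1 + Real.exp z) ≠ 0 := by positivity

lemma G_deriv (z : ℝ) : HasDerivAt G (lam z * G z) z := by
  unfold G
  have h1 : HasDerivAt (fun z => -(l0 * z)) (-(l0 * 1)) z :=
    ((hasDerivAt_id z).const_mul l0).neg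
  have h2 := (g_deriv z).mul h1.exp
  refine h2.congr_deriv ?_
  unfold lam l0
  ring

lemma lam_deriv (z : ℝ) : HasDerivAt lam (-sig z) z := by
  unfold lam sig
  have h1 : HasDerivAt (fun z => 1 + Real.exp z) (Real.exp z) z :=
    (Real.hasDerivAt_exp z).const_add 1
  have h2 := (h1.log (one_add_exp z)).const_sub (Real.log (13 / 3))
  exact h2

lemma sig_deriv (z : ℝ) : HasDerivAt sig (sig z - sig z * sig z) z := by
  unfold sig
  have h1 : HasDerivAt (fun z => 1 + Real.exp z) (Real.exp z) z :=
    (Real.hasDerivAt_exp z).const_add 1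
  have h2 := (Real.hasDerivAt_exp z).div h1 (one_add_exp z)
  refine h2.congr_deriv ?_
  have := one_add_exp z
  field_simp

lemma sig_contDiff (n : ℕ∞ω) : ContDiff ℝ n sig := by
  unfold sig
  exact Real.contDiff_exp.div (contDiff_const.add Real.contDiff_exp) one_add_exp

lemma lam_contDiff (n : ℕ∞ω) : ContDiff ℝ n lam := by
  unfold lam
  exact contDiff_const.sub ((contDiff_const.add Real.contDiff_exp).log one_add_exp)

lemma G_contDiff_nat (n : ℕ) : ContDiff ℝ n G := by
  induction n with
  | zero =>
    rw [Nat.cast_zero, contDiff_zero, continuous_iff_continuousAt]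
    exact fun z => (G_deriv z).continuousAt
  | succ n ih =>
    rw [Nat.cast_add, Nat.cast_one, contDiff_succ_iff_deriv]
    refine ⟨fun z => (G_deriv z).differentiableAt, fun h => ?_, ?_⟩
    · exact absurd h (by exact_mod_cast WithTop.coe_ne_top)
    · have : deriv G = fun z => lam z * G z := funext fun z => (G_deriv z).deriv
      rw [this]
      exact (lam_contDiff n).mul ih

lemma G_contDiff : ContDiff ℝ ∞ G := contDiff_infty.2 fun n => G_contDiff_nat n

lemma sig_z0 : sig z0 = 10 / 13 := by
  unfold sig
  rw [exp_z0]; norm_num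

lemma sig_val : ∀ m < 22, iteratedDeriv m sig z0 = ((Sv.getD m 0 : ℤ) : ℝ) / 13 ^ (m + 1) := by
  intro m
  induction m using Nat.strong_induction_on with
  | _ m ih =>
    intro hm
    rcases m with _ | m
    · rw [iteratedDeriv_zero, sig_z0]
      norm_num [Sv]
    · have hd : deriv sig = fun z => sig z - sig z * sig z := funext fun z => (sig_deriv z).deriv
      rw [iteratedDeriv_succ', hd, iteratedDeriv_fun_sub (sig_contDiff _).contDiffAt
        ((sig_contDiff _).mul (sig_contDiff _)).contDiffAt,
        iteratedDeriv_fun_mul (sig_contDiff _).contDiffAt (sig_contDiff _).contDiffAt,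
        ih m (by omega) (by omega), Sv_rec m (by omega)]
      have h1 : ∀ i ∈ range (m + 1), (m.choose i : ℝ) * iteratedDeriv i sig z0 *
          iteratedDeriv (m - i) sig z0 = ((m.choose i : ℝ) * ((Sv.getD i 0 : ℤ) : ℝ) *
          ((Sv.getD (m - i) 0 : ℤ) : ℝ)) / 13 ^ (m + 2) := by
        intro i hi
        rw [Finset.mem_range] at hi
        rw [ih i (by omega) (by omega), ih (m - i) (by omega) (by omega)]
        have : (13 : ℝ) ^ (m + 2) = 13 ^ (i + 1) * 13 ^ (m - i + 1) := by
          rw [← pow_add]; congr 1; omega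
        rw [this]
        field_simp
      rw [Finset.sum_congr rfl h1, ← Finset.sum_div]
      push_cast
      rw [pow_succ (13 : ℝ) (m + 1)]
      field_simp

lemma lam_zero : lam z0 = 0 := by
  unfold lam
  rw [exp_z0]; norm_num

lemma lam_val : ∀ m < 22, iteratedDeriv (m + 1) lam z0 =
    -(((Sv.getD m 0 : ℤ) : ℝ) / 13 ^ (m + 1)) := by
  intro m hm
  have hd : deriv lam = fun z => -sig z := funext fun z => (lam_deriv z).deriv
  rw [iteratedDeriv_succ', hd, iteratedDeriv_fun_neg, sig_val m hm]

lemma G_val : ∀ m ≤ 22, iteratedDeriv m G z0 = G z0 * (((hv.getD m 0 : ℤ) : ℝ) / 13 ^ m) := by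
  intro m
  induction m using Nat.strong_induction_on with
  | _ m ih =>
    intro hm
    rcases m with _ | m
    · rw [iteratedDeriv_zero]
      norm_num [hv]
    · have hd : deriv G = fun z => lam z * G z := funext fun z => (G_deriv z).deriv
      rw [iteratedDeriv_succ', hd, iteratedDeriv_fun_mul (lam_contDiff _).contDiffAt
        (G_contDiff_nat m).contDiffAt, hv_rec m (by omega), Finset.sum_range_succ']
      have h0 : (m.choose 0 : ℝ) * iteratedDeriv 0 lam z0 * iteratedDeriv (m - 0) G z0 = 0 := by
        rw [iteratedDeriv_zero, lam_zero]; ring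
      rw [h0, add_zero]
      have h1 : ∀ i ∈ range m, (m.choose (i + 1) : ℝ) * iteratedDeriv (i + 1) lam z0 *
          iteratedDeriv (m - (i + 1)) G z0 = G z0 * (-13 * ((m.choose (i + 1) : ℝ) *
          ((hv.getD (m - (i + 1)) 0 : ℤ) : ℝ) * ((Sv.getD i 0 : ℤ) : ℝ)) / 13 ^ (m + 1)) := by
        intro i hi
        rw [Finset.mem_range] at hi
        rw [lam_val i (by omega), ih (m - (i + 1)) (by omega) (by omega)]
        have : (13 : ℝ) ^ (m + 1) = 13 ^ (i + 1) * 13 ^ (m - (i + 1)) * 13 := by
          rw [← pow_add, ← pow_succ]; congr 1; omega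
        rw [this]
        field_simp
      rw [Finset.sum_congr rfl h1, ← Finset.mul_sum, ← Finset.sum_div, ← Finset.mul_sum]
      push_cast
      ring

/-! ### Finite differences -/

lemma fd_mvt (k : ℕ) : ∀ f : ℝ → ℝ, ContDiff ℝ ∞ f → ∀ z ε : ℝ, 0 < ε →
    ∃ ξ ∈ Icc z (z + k * ε), (fwdDiff ε)^[k] f z = ε ^ k * iteratedDeriv k f ξ := by
  induction k with
  | zero =>
    intro f hf z ε hε
    exact ⟨z, by simp, by simp⟩
  | succ k ih =>
    intro f hf z ε hε
    have hs : ContDiff ℝ ∞ (fun x => f (x + ε)) := hf.comp (contDiff_id.add contDiff_const)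
    have hf' : ContDiff ℝ ∞ (fwdDiff ε f) := hs.sub hf
    obtain ⟨ξ, hξ, h⟩ := ih (fwdDiff ε f) hf' z ε hε
    rw [Function.iterate_succ_apply, h]
    have h1 : iteratedDeriv k (fwdDiff ε f) ξ = iteratedDeriv k f (ξ + ε) - iteratedDeriv k f ξ := by
      have : fwdDiff ε f = fun x => f (x + ε) - f x := rfl
      rw [this, iteratedDeriv_fun_sub (hs.of_le (by exact_mod_cast le_top)).contDiffAt
        (hf.of_le (by exact_mod_cast le_top)).contDiffAt, iteratedDeriv_comp_add_const]
    have hdiff : Differentiable ℝ (iteratedDeriv k f) :=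
      hf.differentiable_iteratedDeriv k (by exact_mod_cast WithTop.coe_lt_top k)
    obtain ⟨c, hc, hc2⟩ := exists_deriv_eq_slope (iteratedDeriv k f) (show ξ < ξ + ε by linarith)
      hdiff.continuous.continuousOn hdiff.differentiableOn
    refine ⟨c, ⟨by linarith [hξ.1, hc.1], ?_⟩, ?_⟩
    · have := hξ.2
      have := hc.2
      push_cast
      nlinarith
    · rw [h1, iteratedDeriv_succ, hc2]
      have : ξ + ε - ξ = ε := by ring
      rw [this, pow_succ]
      field_simp

lemma fd_limit {f : ℝ → ℝ} (hf : ContDiff ℝ ∞ f) (k : ℕ) (z : ℝ) :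
    Tendsto (fun ε : ℝ => (fwdDiff ε)^[k] f z / ε ^ k) (𝓝[>] 0) (𝓝 (iteratedDeriv k f z)) := by
  have h : ∀ ε : ℝ, ∃ ξ, 0 < ε → ξ ∈ Icc z (z + k * ε) ∧
      (fwdDiff ε)^[k] f z = ε ^ k * iteratedDeriv k f ξ := by
    intro ε
    by_cases hε : 0 < ε
    · obtain ⟨ξ, h1, h2⟩ := fd_mvt k f hf z ε hε
      exact ⟨ξ, fun _ => ⟨h1, h2⟩⟩
    · exact ⟨0, fun h => absurd h hε⟩
  choose ξ hξ using h
  have h1 : Tendsto ξ (𝓝[>] 0) (𝓝 z) := by
    have hup : Tendsto (fun ε : ℝ => z + k * ε) (𝓝[>] 0) (𝓝 z) := by
      have : Tendsto (fun ε : ℝ => z + k * ε) (𝓝 0) (𝓝 (z + k * 0)) := by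
        apply Continuous.tendsto; fun_prop
      rw [mul_zero, add_zero] at this
      exact this.mono_left nhdsWithin_le_nhds
    refine tendsto_of_tendsto_of_tendsto_of_le_of_le' tendsto_const_nhds hup ?_ ?_
    · filter_upwards [self_mem_nhdsWithin] with ε hε
      exact (hξ ε hε).1.1
    · filter_upwards [self_mem_nhdsWithin] with ε hε
      exact (hξ ε hε).1.2
  have hc : Continuous (iteratedDeriv k f) :=
    hf.continuous_iteratedDeriv k (by exact_mod_cast le_top)
  refine ((hc.tendsto z).comp h1).congr' ?_
  filter_upwards [self_mem_nhdsWithin] with ε hε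
  have hε' : (0 : ℝ) < ε := hε
  simp only [Function.comp]
  rw [(hξ ε hε).2]
  field_simp

/-- the shifted Hankel matrix -/
noncomputable def Mm (f : ℝ → ℝ) (z ε : ℝ) : Matrix (Fin 12) (Fin 12) ℝ :=
  Matrix.of fun i j => f (z + ((i : ℕ) + (j : ℕ) : ℝ) * ε)

/-- the difference matrix -/
noncomputable def Bm (ε : ℝ) : Matrix (Fin 12) (Fin 12) ℝ :=
  Matrix.of fun i k => (-1) ^ ((i : ℕ) - (k : ℕ)) * ((i : ℕ).choose (k : ℕ) : ℝ) / ε ^ (i : ℕ)

lemma fd_expand (f : ℝ → ℝ) (z ε : ℝ) (i : Fin 12) :
    (fwdDiff ε)^[(i : ℕ)] f z =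
      ∑ k : Fin 12, ((-1) ^ ((i : ℕ) - (k : ℕ)) * ((i : ℕ).choose (k : ℕ) : ℝ)) *
        f (z + (k : ℕ) * ε) := by
  rw [fwdDiff_iter_eq_sum_shift, Fin.sum_univ_eq_sum_range (fun k =>
    ((-1) ^ ((i : ℕ) - k) * ((i : ℕ).choose k : ℝ)) * f (z + (k : ℕ) * ε)) 12]
  have hsub : range ((i : ℕ) + 1) ⊆ range 12 := by
    intro k hk
    rw [Finset.mem_range] at hk ⊢
    have := i.2
    omega
  rw [← Finset.sum_subset hsub]
  · refine Finset.sum_congr rfl fun k _ => ?_
    rw [zsmul_eq_mul, nsmul_eq_mul]
    push_cast
    rfl
  · intro k _ hk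
    rw [Finset.mem_range, not_lt] at hk
    rw [Nat.choose_eq_zero_of_lt (by omega)]
    simp

lemma BMB (f : ℝ → ℝ) (z ε : ℝ) (i j : Fin 12) :
    (Bm ε * Mm f z ε * (Bm ε).transpose) i j =
      (fwdDiff ε)^[(i : ℕ) + (j : ℕ)] f z / ε ^ ((i : ℕ) + (j : ℕ)) := by
  rw [Function.iterate_add_apply, fd_expand]
  simp only [Matrix.mul_apply, Matrix.transpose_apply]
  have h1 : ∀ k : Fin 12, (fwdDiff ε)^[(j : ℕ)] f (z + (k : ℕ) * ε) =
      ∑ l : Fin 12, ((-1) ^ ((j : ℕ) - (l : ℕ)) * ((j : ℕ).choose (l : ℕ) : ℝ)) *
        f (z + ((k : ℕ) + (l : ℕ) : ℝ) * ε) := by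
    intro k
    rw [fd_expand]
    refine Finset.sum_congr rfl fun l _ => ?_
    congr 2
    ring
  simp only [h1, Bm, Mm, Matrix.of_apply]
  rw [Finset.sum_div]
  simp only [Finset.sum_mul, Finset.mul_sum, Finset.sum_div]
  rw [Finset.sum_comm]
  refine Finset.sum_congr rfl fun k _ => Finset.sum_congr rfl fun l _ => ?_
  rw [pow_add]
  ring

lemma tendsto_det {α : Type*} {n : Type*} [Fintype n] [DecidableEq n] {F : α → Matrix n n ℝ}
    {l : Filter α} {A : Matrix n n ℝ} (h : Tendsto F l (𝓝 A)) :
    Tendsto (fun x => (F x).det) l (𝓝 A.det) := by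
  have hc : Continuous (fun A : Matrix n n ℝ => A.det) := Continuous.matrix_det continuous_id
  exact (hc.tendsto A).comp h

lemma det_limit {f : ℝ → ℝ} (hf : ContDiff ℝ ∞ f) (z : ℝ)
    (h : ∀ ε : ℝ, 0 < ε → 0 ≤ (Mm f z ε).det) :
    0 ≤ (Matrix.of fun i j : Fin 12 => iteratedDeriv ((i : ℕ) + (j : ℕ)) f z).det := by
  have h1 : Tendsto (fun ε : ℝ => Bm ε * Mm f z ε * (Bm ε).transpose) (𝓝[>] 0)
      (𝓝 (Matrix.of fun i j : Fin 12 => iteratedDeriv ((i : ℕ) + (j : ℕ)) f z)) := by
    refine tendsto_pi_nhds.2 fun i => tendsto_pi_nhds.2 fun j => ?_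
    simp only [BMB, Matrix.of_apply]
    exact fd_limit hf _ z
  have h2 : Tendsto (fun ε : ℝ => (Bm ε * Mm f z ε * (Bm ε).transpose).det) (𝓝[>] 0)
      (𝓝 (Matrix.of fun i j : Fin 12 => iteratedDeriv ((i : ℕ) + (j : ℕ)) f z).det) :=
    tendsto_det h1
  refine ge_of_tendsto h2 ?_
  filter_upwards [self_mem_nhdsWithin] with ε hε
  rw [Matrix.det_mul, Matrix.det_mul, Matrix.det_transpose]
  have := h ε hε
  have h3 : 0 ≤ (Bm ε).det * (Bm ε).det := mul_self_nonneg _
  nlinarith

lemma G_confluent : (Matrix.of fun i j : Fin 12 => iteratedDeriv ((i : ℕ) + (j : ℕ)) G z0).det < 0 := by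
  have hG : 0 < G z0 := by unfold G; have := g_pos z0; positivity
  have h1 : (Matrix.of fun i j : Fin 12 => iteratedDeriv ((i : ℕ) + (j : ℕ)) G z0)
      = Matrix.of fun i j : Fin 12 => (G z0 / 13 ^ (i : ℕ)) *
        (Matrix.of fun i j : Fin 12 => (1 / 13 ^ (j : ℕ) : ℝ) * Hm i j) i j := by
    ext i j
    simp only [Matrix.of_apply, Hm]
    rw [G_val _ (by have := i.2; have := j.2; omega), pow_add]
    field_simp
  rw [h1, Matrix.det_mul_column, Matrix.det_mul_row]
  have h2 : 0 < ∏ i : Fin 12, G z0 / 13 ^ (i : ℕ) := Finset.prod_pos fun i _ => by positivity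
  have h3 : 0 < ∏ j : Fin 12, (1 / 13 ^ (j : ℕ) : ℝ) := Finset.prod_pos fun i _ => by positivity
  exact mul_neg_of_pos_of_neg h2 (mul_neg_of_pos_of_neg h3 Hm_det)

lemma rev_sign : Equiv.Perm.sign (Fin.revPerm : Equiv.Perm (Fin 12)) = 1 := by decide +kernel

/-- **Main theorem.** `g` has a negative minor of order `12`; in particular it is not a Polya
frequency function of order `12`, and hence not of infinite order. -/
theorem result :
    (∃ x y : Fin 12 → ℝ, StrictMono x ∧ StrictMono y ∧
      (Matrix.of fun i j => g (x i - y j)).det < 0) ∧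
    ¬ IsPF 12 g ∧ ¬ ∀ k, IsPF k g := by
  have key : ∃ x y : Fin 12 → ℝ, StrictMono x ∧ StrictMono y ∧
      (Matrix.of fun i j => g (x i - y j)).det < 0 := by
    by_contra hcon
    push Not at hcon
    refine absurd (det_limit G_contDiff z0 fun ε hε => ?_) (not_le.2 G_confluent)
    have h1 := hcon (fun i => z0 + (i : ℕ) * ε) (fun j => -(((Fin.rev j : Fin 12) : ℕ) * ε))
      (fun i j hij => by
        have : ((i : ℕ) : ℝ) < ((j : ℕ) : ℝ) := by exact_mod_cast hij
        simp only
        nlinarith)
      (fun i j hij => by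
        have h2 : Fin.rev j < Fin.rev i := Fin.rev_lt_rev.2 hij
        have : (((Fin.rev j : Fin 12) : ℕ) : ℝ) < (((Fin.rev i : Fin 12) : ℕ) : ℝ) := by
          exact_mod_cast h2
        simp only
        nlinarith)
    have h2 : (Matrix.of fun i j : Fin 12 => g (z0 + (i : ℕ) * ε - -(((Fin.rev j : Fin 12) : ℕ) * ε)))
        = (Mm g z0 ε).submatrix id (Fin.revPerm : Equiv.Perm (Fin 12)) := by
      ext i j
      simp only [Matrix.of_apply, Matrix.submatrix_apply, Mm, id, Fin.revPerm_apply]
      congr 1
      ring
    rw [h2, Matrix.det_permute', rev_sign] at h1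
    simp only [Units.val_one, Int.cast_one, one_mul] at h1
    have h3 : Mm G z0 ε = Matrix.of fun i j : Fin 12 => Real.exp (-(l0 * (z0 + (i : ℕ) * ε))) *
        (Matrix.of fun i j : Fin 12 => Real.exp (-(l0 * ((j : ℕ) * ε))) * Mm g z0 ε i j) i j := by
      ext i j
      simp only [Matrix.of_apply, Mm, G]
      rw [mul_comm, ← mul_assoc, ← Real.exp_add]
      congr 2
      ring
    rw [h3, Matrix.det_mul_column, Matrix.det_mul_row]
    have h4 : 0 < ∏ i : Fin 12, Real.exp (-(l0 * (z0 + (i : ℕ) * ε))) :=
      Finset.prod_pos fun i _ => Real.exp_pos _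
    have h5 : 0 < ∏ j : Fin 12, Real.exp (-(l0 * ((j : ℕ) * ε))) :=
      Finset.prod_pos fun i _ => Real.exp_pos _
    exact mul_nonneg h4.le (mul_nonneg h5.le h1)
  have key2 : ¬ IsPF 12 g := by
    rintro ⟨-, -, h⟩
    obtain ⟨x, y, hx, hy, hneg⟩ := key
    exact absurd (h 12 le_rfl x y hx hy) (not_le.2 hneg)
  exact ⟨key, key2, fun h => key2 (h 12)⟩

end Pool.Agent.Results.MP_41e59c_pr.NotPolyaFrequency
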